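import Mathlib
import Pool.Agent.H484R3.CayF

/-!
MP_9441bf_co: the exact value of `k(n)`, the greatest number of entries which can always be deleted
from a Cayley table of an abelian group of order `n` so that the isomorphism type of the group is
still determined among the abelian groups.
-/

set_option autoImplicit false

namespace Pool.Agent.Results.MP_9441bf_co.ExactValue

/-- `A` is a Cayley table of the group `H`: there are bijections `α, β, γ` from the index set onto
`H` such that `γ (A i j) = α i * β j` for all `i, j`. -/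
def IsCayleyTable (n : ℕ) (H : Type) [Group H] (A : Fin n → Fin n → Fin n) : Prop :=
  ∃ α β γ : Fin n ≃ H, ∀ i j, γ (A i j) = α i * β j

/-- `A` with the cells of `S` deleted determines `G`: every Cayley table `A'` of an abelian group
`G'` which agrees with `A` in all cells outside `S` satisfies `G' ≅ G`. -/
def Determines (n : ℕ) (G : Type) [CommGroup G] (A : Fin n → Fin n → Fin n)
    (S : Finset (Fin n × Fin n)) : Prop :=
  ∀ (G' : Type) [CommGroup G'] (A' : Fin n → Fin n → Fin n), IsCayleyTable n G' A' →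
    (∀ i j, (i, j) ∉ S → A' i j = A i j) → Nonempty (G' ≃* G)

/-- `k ≤ n ^ 2` and for every abelian group `G` of order `n`, every Cayley table `A` of `G` and
every set `S` of `k` cells, `A` with the cells of `S` deleted determines `G`. -/
def AlwaysDetermines (n k : ℕ) : Prop :=
  k ≤ n ^ 2 ∧ ∀ (G : Type) [CommGroup G] (A : Fin n → Fin n → Fin n), IsCayleyTable n G A →
    ∀ S : Finset (Fin n × Fin n), S.card = k → Determines n G A S

open Pool.Agent.H484R3.Cay in
/-- The exact value of `k(n)` for every `n`: it is `n ^ 2` for squarefree `n`; otherwise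
`k(n) + 1 = (1 - 1 / p ^ 2) n ^ 2 / 4`, where `p` is the least odd prime with `p ^ 2 ∣ n`, and
`k(n) + 1 = n ^ 2 / 4` if there is no such odd prime. -/
theorem result (n : ℕ) (hn : 1 ≤ n) :
    ∃ k : ℕ, IsGreatest {k | AlwaysDetermines n k} k ∧
      ((Squarefree n ∧ k = n ^ 2) ∨
       (∃ p : ℕ, p.Prime ∧ p ≠ 2 ∧ p ^ 2 ∣ n ∧
          (∀ q : ℕ, q.Prime → q ≠ 2 → q ^ 2 ∣ n → p ≤ q) ∧
          4 * p ^ 2 * (k + 1) = (p ^ 2 - 1) * n ^ 2) ∨
       (2 ^ 2 ∣ n ∧ (∀ q : ℕ, q.Prime → q ^ 2 ∣ n → q = 2) ∧ 4 * (k + 1) = n ^ 2)) := by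
  have hn0 : n ≠ 0 := by omega
  by_cases hsq : Squarefree n
  · refine ⟨n ^ 2, ⟨?_, fun k hk => hk.1⟩, Or.inl ⟨hsq, rfl⟩⟩
    refine good_of_thr le_rfl ?_
    intro q hq hqn
    exfalso
    rw [Nat.squarefree_iff_prime_squarefree] at hsq
    exact hsq q hq (by rwa [← pow_two])
  by_cases hodd : ∃ p : ℕ, p.Prime ∧ p ≠ 2 ∧ p ^ 2 ∣ n
  · classical
    obtain ⟨p, ⟨hp, hp2, hpn⟩, hmin⟩ : ∃ p : ℕ, (p.Prime ∧ p ≠ 2 ∧ p ^ 2 ∣ n) ∧
        ∀ q : ℕ, q.Prime → q ≠ 2 → q ^ 2 ∣ n → p ≤ q :=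
      ⟨Nat.find hodd, Nat.find_spec hodd, fun q h1 h2 h3 => Nat.find_min' hodd ⟨h1, h2, h3⟩⟩
    obtain ⟨t, rfl⟩ : ∃ t, p = 2 * t + 1 := by
      rcases hp.eq_two_or_odd' with h | h
      · exact absurd h hp2
      · exact h
    obtain ⟨m, hm⟩ := id hpn
    have hm0 : m ≠ 0 := by rintro rfl; simp at hm; exact hn0 hm
    have ht0 : t ≠ 0 := by rintro rfl; exact hp.ne_one rfl
    have hP : (2 * t + 1) ^ 2 - 1 = 4 * (t * (t + 1)) := by
      have : (2 * t + 1) ^ 2 = 4 * (t * (t + 1)) + 1 := by ring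
      omega
    -- the minimal distance
    obtain ⟨k, hk⟩ : ∃ k, k + 1 = (t * (t + 1)) * ((2 * t + 1) * m) ^ 2 := by
      have : 0 < (t * (t + 1)) * ((2 * t + 1) * m) ^ 2 := by positivity
      exact ⟨(t * (t + 1)) * ((2 * t + 1) * m) ^ 2 - 1, by omega⟩
    have hval : 4 * (2 * t + 1) ^ 2 * (k + 1) = ((2 * t + 1) ^ 2 - 1) * n ^ 2 := by
      rw [hP, hk, hm]; ring
    have h4 : 4 * (k + 1) < n ^ 2 := by
      have h5 : (2 * t + 1) ^ 2 * (4 * (k + 1)) < (2 * t + 1) ^ 2 * n ^ 2 := by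
        calc (2 * t + 1) ^ 2 * (4 * (k + 1)) = 4 * (2 * t + 1) ^ 2 * (k + 1) := by ring
          _ = ((2 * t + 1) ^ 2 - 1) * n ^ 2 := hval
          _ < (2 * t + 1) ^ 2 * n ^ 2 := by
              refine Nat.mul_lt_mul_of_pos_right ?_ (by positivity)
              have : 0 < (2 * t + 1) ^ 2 := by positivity
              omega
      exact Nat.lt_of_mul_lt_mul_left h5
    refine ⟨k, ⟨?_, ?_⟩, Or.inr (Or.inl ⟨2 * t + 1, hp, hp2, hpn, hmin, hval⟩)⟩
    · refine good_of_thr (by omega) ?_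
      intro q hq hqn
      by_cases hq2 : q = 2
      · left
        refine ⟨hq2, ?_⟩
        rw [← pow_two]; omega
      · right
        refine ⟨hq2, ?_⟩
        have hle := hmin q hq hq2 hqn
        have hq1 : 1 ≤ q ^ 2 := Nat.one_le_pow _ _ hq.pos
        obtain ⟨r, hr⟩ : ∃ r, q ^ 2 = r + 1 := ⟨q ^ 2 - 1, by omega⟩
        have er : q ^ 2 - 1 = r := by omega
        have hsqle : (2 * t + 1) ^ 2 ≤ q ^ 2 := Nat.pow_le_pow_left hle 2
        obtain ⟨w, hw⟩ : ∃ w, (2 * t + 1) ^ 2 = w + 1 := ⟨(2 * t + 1) ^ 2 - 1, by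
          have : 0 < (2 * t + 1) ^ 2 := by positivity
          omega⟩
        have ew : (2 * t + 1) ^ 2 - 1 = w := by omega
        rw [ew] at hval
        rw [er]
        have h6 : (2 * t + 1) ^ 2 * (4 * q ^ 2 * k) < (2 * t + 1) ^ 2 * (r * n ^ 2) := by
          calc (2 * t + 1) ^ 2 * (4 * q ^ 2 * k) < q ^ 2 * (4 * (2 * t + 1) ^ 2 * (k + 1)) := by
                have hpos : 0 < (2 * t + 1) ^ 2 * q ^ 2 := by positivity
                nlinarith
            _ = q ^ 2 * (w * n ^ 2) := by rw [hval]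
            _ ≤ (2 * t + 1) ^ 2 * (r * n ^ 2) := by
                rw [← mul_assoc, ← mul_assoc]
                refine Nat.mul_le_mul_right _ ?_
                rw [hr, hw]
                rw [hr, hw] at hsqle
                nlinarith
        exact Nat.lt_of_mul_lt_mul_left h6
    · intro k' hk'
      have := lt_of_good (D := k + 1) hn0 hp hpn (Or.inr ⟨hp2, hval.symm.le⟩) hk'
      omega
  · push Not at hodd
    have honly : ∀ q : ℕ, q.Prime → q ^ 2 ∣ n → q = 2 := by
      intro q hq hqn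
      by_contra h
      exact hodd q hq h hqn
    have h2n : 2 ^ 2 ∣ n := by
      rw [Nat.squarefree_iff_prime_squarefree] at hsq
      push Not at hsq
      obtain ⟨q, hq, hqn⟩ := hsq
      rw [← pow_two] at hqn
      have := honly q hq hqn
      rwa [this] at hqn
    obtain ⟨m, hm⟩ := id h2n
    have hm0 : m ≠ 0 := by rintro rfl; simp at hm; exact hn0 hm
    obtain ⟨k, hk⟩ : ∃ k, k + 1 = 4 * m ^ 2 := by
      have : 0 < 4 * m ^ 2 := by positivity
      exact ⟨4 * m ^ 2 - 1, by omega⟩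
    have hval : 4 * (k + 1) = n ^ 2 := by rw [hk, hm]; ring
    refine ⟨k, ⟨?_, ?_⟩, Or.inr (Or.inr ⟨h2n, honly, hval⟩)⟩
    · refine good_of_thr (by omega) ?_
      intro q hq hqn
      left
      refine ⟨honly q hq hqn, ?_⟩
      rw [← pow_two]; omega
    · intro k' hk'
      have := lt_of_good (D := k + 1) hn0 Nat.prime_two h2n (Or.inl ⟨rfl, hval.symm.le⟩) hk'
      omega

end Pool.Agent.Results.MP_9441bf_co.ExactValue
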